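import Pool.Agent.TH846.DiagD

/-!
The series `f_2 = 3F2([1/9,4/9,7/9],[2/3,1],x)` is the diagonal of a rational function.

Its `n`-th coefficient is `b (3 n) * b n`, where `b n = (1/3)_n / n!` is the `n`-th coefficient of
`(1-x)^(-1/3)`. The sequence `b` is the diagonal of `3 / (3 + 3 y + y^2 - x (1+y)^3)`, its third
section `b (3 n)` is the diagonal of an explicit rational function in two variables, and the
product of the two in disjoint variables has diagonal `b (3 n) * b n`.
-/

set_option autoImplicit false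

open Pool.Agent.TH846.Diag

theorem Pool.Agent.Results.MP_79c51e_nt.SecondSeriesDiagonal.result :
    ∃ m : ℕ, 1 ≤ m ∧
      ∃ P Q : MvPolynomial (Fin m) ℚ, MvPolynomial.constantCoeff Q ≠ 0 ∧
        ∃ S : MvPowerSeries (Fin m) ℚ,
          S * (Q : MvPowerSeries (Fin m) ℚ) = (P : MvPowerSeries (Fin m) ℚ) ∧
          ∀ n : ℕ,
            MvPowerSeries.coeff (Finsupp.equivFunOnFinite.symm (fun _ : Fin m => n)) S =
              ((ascPochhammer ℚ n).eval (1/9 : ℚ) * (ascPochhammer ℚ n).eval (4/9 : ℚ) *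
                  (ascPochhammer ℚ n).eval (7/9 : ℚ)) /
                ((ascPochhammer ℚ n).eval (2/3 : ℚ) * ((n.factorial : ℚ) ^ 2)) := by
  have h := (isDiag_b3.mul isDiag_b).transport
    (Fintype.equivFinOfCardEq (n := 4) (α := Option Unit ⊕ Option Unit) (by simp))
  obtain ⟨P, Q, hQ, S, hS, hd⟩ := h
  refine ⟨4, by norm_num, P, Q, hQ, S, hS, fun n => ?_⟩
  rw [hd n _ (fun i => by simp)]
  exact f2_coeff n
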